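import Mathlib
import Pool.Agent.H.MP_906def_an.B

set_option autoImplicit false

open Filter Topology Set Function MeasureTheory

namespace Pool.Agent.Results.MP_906def_an.No

open Pool.Agent.H.MP_906def_an

/-- The dimension spectrum: the Hausdorff dimensions of the limit sets of all subsystems. -/
def DS {E : Type} (φ : E → ℝ → ℝ) : Set ℝ := {x | ∃ F : Set E, (dimH (J φ F)).toReal = x}

/-- The local Hausdorff dimension of `K` at `x`. -/
noncomputable def locdim (K : Set ℝ) (x : ℝ) : ENNReal :=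
  ⨅ (ε : ℝ) (_ : 0 < ε), dimH (K ∩ Metric.ball x ε)

noncomputable def q (η : ℝ) (k : ℕ) : ℝ := (2 : ℝ) ^ (-(η * n k))

theorem q_pos (η : ℝ) (k : ℕ) : 0 < q η k := Real.rpow_pos_of_pos two_pos _

theorem q_small {η : ℝ} (hη : 0 < η) : Tendsto (q η) atTop (𝓝 0) := by
  have h1 : Tendsto (fun k : ℕ => (n k : ℝ)) atTop atTop :=
    tendsto_atTop_mono (fun k => by
      have : (k : ℝ) + 3 ≤ n k := by exact_mod_cast n_ge k
      show (k : ℝ) ≤ n k
      linarith) tendsto_natCast_atTop_atTop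
  exact (tendsto_rpow_atBot_of_base_gt_one 2 one_lt_two).comp
    (tendsto_neg_atTop_atBot.comp (h1.const_mul_atTop hη))

theorem sg_tail {η : ℝ} (hη : 0 < η) {k : ℕ} (hq : q η k ≤ 1 / 8) (F : Set EE) {s : ℝ}
    (hs : 1 / 2 + η / 2 ≤ s) :
    sg F s ≤ ENNReal.ofReal (∑ i ∈ Finset.range k, cnt F i * w i s + 4 * q η k) := by
  have hq0 := q_pos η k
  have p0 : ∀ i, 0 ≤ (cnt F i : ℝ) * w i s := fun i => mul_nonneg (by positivity) (w_pos i s).le
  rw [sg, ← Summable.sum_add_tsum_nat_add' (k := k) ENNReal.summable,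
    ENNReal.ofReal_add (Finset.sum_nonneg (fun i _ => p0 i)) (by positivity),
    ENNReal.ofReal_sum_of_nonneg (fun i _ => p0 i)]
  refine add_le_add le_rfl ?_
  have hs' := hasSum_geometric_two.mul_left (2 * q η k)
  rw [show 4 * q η k = 2 * q η k * 2 by ring, ← hs'.tsum_eq,
    ENNReal.ofReal_tsum_of_nonneg (fun i => by positivity) hs'.summable]
  refine ENNReal.tsum_le_tsum (fun i => ENNReal.ofReal_le_ofReal ?_)
  have h1 : (cnt F (i + k) : ℝ) ≤ N (i + k) := by exact_mod_cast cnt_le F (i + k)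
  have h2 : ((i : ℝ) + 1) * n k ≤ n (i + k) := by exact_mod_cast n_add k i
  have hn : (0 : ℝ) ≤ n (i + k) := by positivity
  calc (cnt F (i + k) : ℝ) * w (i + k) s ≤ N (i + k) * w (i + k) s :=
        mul_le_mul_of_nonneg_right h1 (w_pos _ _).le
    _ ≤ (2 : ℝ) ^ (1 + (-(η * n k)) * ((i + 1 : ℕ) : ℝ)) := by
        rw [N_cast, w, ← Real.rpow_add two_pos]
        refine Real.rpow_le_rpow_of_exponent_le one_le_two ?_
        push_cast
        nlinarith [mul_le_mul_of_nonneg_left h2 hη.le, mul_le_mul_of_nonneg_left hs hn]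
    _ = 2 * q η k * q η k ^ i := by
        rw [Real.rpow_add two_pos, Real.rpow_one, Real.rpow_mul (by norm_num), Real.rpow_natCast,
          pow_succ, q]; ring
    _ ≤ _ := mul_le_mul_of_nonneg_left (pow_le_pow_left₀ hq0.le (by linarith) i) (by positivity)

theorem sg_head (k : ℕ) (F : Set EE) (s : ℝ) :
    ENNReal.ofReal (∑ i ∈ Finset.range k, cnt F i * w i s) ≤ sg F s := by
  rw [ENNReal.ofReal_sum_of_nonneg (fun i _ => mul_nonneg (by positivity) (w_pos i s).le)]
  exact ENNReal.sum_le_tsum _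

noncomputable def G (k : ℕ) (j : ∀ i : Fin k, Fin (N i + 1)) (s : ℝ) : ℝ :=
  ∑ i : Fin k, ((j i).val : ℝ) * w i s

def T (η : ℝ) (k : ℕ) (j : ∀ i : Fin k, Fin (N i + 1)) : Set ℝ :=
  {x | 1 / 2 + η / 2 < x ∧ (∀ s, 1 / 2 + η / 2 ≤ s → s < x → 1 - 4 * q η k ≤ G k j s) ∧
    ∀ s, x < s → G k j s ≤ 1}

theorem T_diam {η : ℝ} {k : ℕ} (hq : q η k ≤ 1 / 8) (j : ∀ i : Fin k, Fin (N i + 1)) :
    Metric.ediam (T η k j) ≤ ENNReal.ofReal (16 * q η k) := by
  have hq0 := q_pos η k
  have key : ∀ x ∈ T η k j, ∀ y ∈ T η k j, x < y → y - x ≤ 16 * q η k := by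
    intro x hx y hy hxy
    have h1 := hx.2.2 (x + (y - x) / 4) (by linarith)
    have h2 := hy.2.1 (y - (y - x) / 4) (by linarith [hx.1]) (by linarith)
    have h3 : G k j (y - (y - x) / 4) ≤ (2 : ℝ) ^ (-(y - x)) * G k j (x + (y - x) / 4) := by
      rw [G, G, Finset.mul_sum]
      refine Finset.sum_le_sum (fun i _ => ?_)
      rw [mul_left_comm]
      refine mul_le_mul_of_nonneg_left ?_ (by positivity)
      rw [w, w, ← Real.rpow_add two_pos]
      refine Real.rpow_le_rpow_of_exponent_le one_le_two ?_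
      have : (1 : ℝ) ≤ n i := by
        have := n_ge i
        exact_mod_cast (show 1 ≤ n i by omega)
      nlinarith
    have h4 : (0 : ℝ) < (2 : ℝ) ^ (-(y - x)) := by positivity
    have h5 : 1 - 4 * q η k ≤ (2 : ℝ) ^ (-(y - x)) := by nlinarith
    have h6 : (2 : ℝ) ^ (-(y - x)) * (1 + (y - x) / 2) ≤ 1 := by
      rw [Real.rpow_neg (by norm_num), inv_mul_le_iff₀ (by positivity), mul_one,
        Real.rpow_def_of_pos two_pos]
      have := Real.add_one_le_exp (Real.log 2 * (y - x))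
      nlinarith [Real.log_two_gt_d9]
    nlinarith [mul_le_mul_of_nonneg_right h5 (show 0 ≤ 1 + (y - x) / 2 by linarith)]
  refine Metric.ediam_le (fun x hx y hy => ?_)
  rw [edist_dist, Real.dist_eq]
  refine ENNReal.ofReal_le_ofReal ?_
  rcases lt_trichotomy x y with h | h | h
  · rw [abs_sub_comm, abs_of_pos (by linarith)]; exact key x hx y hy h
  · rw [h, sub_self, abs_zero]; positivity
  · rw [abs_of_pos (by linarith)]; exact key y hy x hx h

theorem T_cover {η : ℝ} (hη : 0 < η) {k : ℕ} (hq : q η k ≤ 1 / 8) :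
    DS (sim aa rr) ∩ Ici (1 / 2 + η) ⊆ ⋃ j, T η k j := by
  rintro x ⟨⟨F, hF⟩, hx⟩
  have hF' : D F = x := hF
  have hx' : 1 / 2 + η ≤ x := hx
  refine mem_iUnion.2 ⟨fun i => ⟨cnt F i, Nat.lt_succ_of_le (cnt_le F i)⟩, by linarith,
    fun s h1 h2 => ?_, fun s h => ?_⟩
  · have h3 : 1 < sg F s := by
      by_contra hc
      have := D_up (by linarith) (not_lt.1 hc)
      linarith
    have h4 := ENNReal.one_lt_ofReal.1 (h3.trans_le (sg_tail hη hq F h1))
    rw [Finset.sum_range] at h4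
    simp only [G]; linarith
  · have h3 : sg F s ≤ 1 := by
      by_contra hc
      have := D_low (by linarith) (not_le.1 hc)
      linarith
    have h4 := ENNReal.ofReal_le_one.1 ((sg_head k F s).trans h3)
    rwa [Finset.sum_range] at h4

theorem card_le (k : ℕ) : ∏ i ∈ Finset.range k, (N i + 1) ≤ 2 ^ (2 * (k + 2).factorial) := by
  induction k with
  | zero => simp
  | succ k ih =>
    rw [Finset.prod_range_succ]
    have h1 : N k + 1 ≤ 2 ^ (n k + 2) := by
      have : 1 ≤ 2 ^ (n k + 1) := Nat.one_le_two_pow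
      rw [N, pow_succ 2 (n k + 1)]; omega
    have h2 : 2 * (k + 2).factorial + (n k + 2) ≤ 2 * (k + 1 + 2).factorial := by
      have e : (k + 1 + 2).factorial = (k + 3) * (k + 2).factorial := by
        rw [show k + 1 + 2 = (k + 2) + 1 by ring, Nat.factorial_succ]
      have := Nat.self_le_factorial (k + 2)
      have e2 : n k = (k + 3) * (k + 2).factorial := by rw [← e]; rfl
      rw [e2, e]; nlinarith
    calc _ ≤ 2 ^ (2 * (k + 2).factorial) * 2 ^ (n k + 2) := Nat.mul_le_mul ih h1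
      _ ≤ _ := by rw [← pow_add]; exact Nat.pow_le_pow_right two_pos h2

theorem dim_zero {η : ℝ} (hη : 0 < η) : dimH (DS (sim aa rr) ∩ Ici (1 / 2 + η)) = 0 := by
  by_contra hne
  obtain ⟨d, hd0, hd⟩ := ENNReal.lt_iff_exists_nnreal_btwn.1 (pos_iff_ne_zero.2 hne)
  have hd0' : (0 : ℝ) < d := by exact_mod_cast hd0
  have hq : ∀ᶠ k in atTop, q η k ≤ 1 / 8 := (q_small hη).eventually (ge_mem_nhds (by norm_num))
  have h1 := Measure.hausdorffMeasure_le_liminf_sum (d : ℝ) (DS (sim aa rr) ∩ Ici (1 / 2 + η))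
    (l := atTop) (fun k => ENNReal.ofReal (16 * q η k))
    (by rw [← ENNReal.ofReal_zero]
        have := (q_small hη).const_mul 16
        rw [mul_zero] at this
        exact ENNReal.tendsto_ofReal this) (T η)
    (hq.mono (fun k hk j => T_diam hk j)) (hq.mono (fun k hk => T_cover hη hk))
  obtain ⟨K, hK⟩ := exists_nat_gt (2 / (η * d))
  rw [div_lt_iff₀ (by positivity)] at hK
  have h2 : ∀ᶠ k in atTop, ∑ j, Metric.ediam (T η k j) ^ (d : ℝ) ≤ ENNReal.ofReal (16 ^ (d : ℝ)) := by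
    filter_upwards [hq, eventually_ge_atTop K] with k hk hkK
    have hq0 := q_pos η k
    calc ∑ j, Metric.ediam (T η k j) ^ (d : ℝ)
        ≤ ∑ _j : (∀ i : Fin k, Fin (N i + 1)), ENNReal.ofReal ((16 * q η k) ^ (d : ℝ)) :=
          Finset.sum_le_sum (fun j _ => by
            rw [← ENNReal.ofReal_rpow_of_nonneg (by positivity) hd0'.le]
            exact ENNReal.rpow_le_rpow (T_diam hk j) hd0'.le)
      _ = ENNReal.ofReal (((∏ i ∈ Finset.range k, (N i + 1) : ℕ) : ℝ) * (16 * q η k) ^ (d : ℝ)) := by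
          rw [Finset.sum_const, nsmul_eq_mul, ENNReal.ofReal_mul (by positivity),
            ENNReal.ofReal_natCast, Finset.card_univ, Fintype.card_pi, Finset.prod_range]
          simp
      _ ≤ _ := by
          refine ENNReal.ofReal_le_ofReal ?_
          have c1 : ((∏ i ∈ Finset.range k, (N i + 1) : ℕ) : ℝ) ≤
              (2 : ℝ) ^ (2 * ((k + 2).factorial : ℝ)) := by
            rw [show 2 * ((k + 2).factorial : ℝ) = ((2 * (k + 2).factorial : ℕ) : ℝ) by
              push_cast; ring, Real.rpow_natCast]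
            exact_mod_cast card_le k
          have c2 : (2 : ℝ) ^ (2 * ((k + 2).factorial : ℝ)) * q η k ^ (d : ℝ) ≤ 1 := by
            rw [q, ← Real.rpow_mul (by norm_num), ← Real.rpow_add two_pos]
            refine Real.rpow_le_one_of_one_le_of_nonpos one_le_two ?_
            have e1 : (n k : ℝ) = (k + 3) * ((k + 2).factorial : ℝ) := by
              rw [n, show k + 3 = (k + 2) + 1 by ring, Nat.factorial_succ]; push_cast; ring
            have e2 : (K : ℝ) ≤ k := by exact_mod_cast hkK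
            have e3 : 2 ≤ (k + 3) * (η * d) := by nlinarith [mul_pos hη hd0']
            have e4 : (0 : ℝ) ≤ ((k + 2).factorial : ℝ) := by positivity
            rw [e1]; nlinarith [mul_le_mul_of_nonneg_right e3 e4]
          rw [Real.mul_rpow (by norm_num) hq0.le]
          have c3 : (0 : ℝ) ≤ q η k ^ (d : ℝ) := by positivity
          have c4 : (0 : ℝ) ≤ 16 ^ (d : ℝ) := by positivity
          nlinarith [mul_le_mul_of_nonneg_right c1 c3,
            mul_le_mul_of_nonneg_left ((mul_le_mul_of_nonneg_right c1 c3).trans c2) c4]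
  have h3 := h1.trans (liminf_le_of_frequently_le' h2.frequently)
  exact absurd (dimH_le_of_hausdorffMeasure_ne_top (ne_top_of_le_ne_top ENNReal.ofReal_ne_top h3))
    (not_le.2 hd)

theorem result : ∃ (E : Type) (_ : Countable E) (_ : Infinite E) (a r : E → ℝ),
    (∀ e, 0 < r e ∧ r e ≤ 1 / 4) ∧
    (∀ e, MapsTo (sim a r e) (Icc 0 1) (Icc 0 1)) ∧
    (∀ e, MapsTo (sim a r e) (Ioo (-1) 2) (Ioo (-1) 2)) ∧
    (∀ e e', e ≠ e' → Disjoint (sim a r e '' Icc 0 1) (sim a r e' '' Icc 0 1)) ∧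
    1 / 2 ∈ DS (sim a r) ∧ locdim (DS (sim a r)) (1 / 2) = 1 ∧
    (∀ x, 1 / 2 < x → locdim (DS (sim a r)) x = 0) ∧
    (∀ ε, 0 < ε → ∃ x ∈ DS (sim a r), 1 / 2 < x ∧ x < 1 / 2 + ε) ∧
    ¬ ContinuousOn (locdim (DS (sim a r))) (DS (sim a r)) := by
  have h1 : 1 / 2 ∈ DS (sim aa rr) := D_int (by norm_num) le_rfl
  have h2 : locdim (DS (sim aa rr)) (1 / 2) = 1 := by
    have : ∀ ε : ℝ, 0 < ε → dimH (DS (sim aa rr) ∩ Metric.ball (1 / 2) ε) = 1 := by
      intro ε hε
      have hm : 0 < min ε (1 / 2) := lt_min hε (by norm_num)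
      have hsub : Ioo (1 / 2 - min ε (1 / 2)) (1 / 2) ⊆ DS (sim aa rr) ∩ Metric.ball (1 / 2) ε := by
        intro x hx
        refine ⟨D_int (by linarith [hx.1, min_le_right ε (1 / 2)]) hx.2.le, ?_⟩
        rw [Real.ball_eq_Ioo]
        exact ⟨by linarith [hx.1, min_le_left ε (1 / 2)], by linarith [hx.2]⟩
      have := Real.dimH_of_nonempty_interior (s := DS (sim aa rr) ∩ Metric.ball (1 / 2) ε)
        ((nonempty_Ioo.2 (by linarith)).mono (interior_maximal hsub isOpen_Ioo))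
      simpa using this
    refine le_antisymm (iInf₂_le_of_le 1 one_pos (this 1 one_pos).le)
      (le_iInf₂ (fun ε hε => (this ε hε).ge))
  have h3 : ∀ x, 1 / 2 < x → locdim (DS (sim aa rr)) x = 0 := by
    intro x hx
    refine le_antisymm (iInf₂_le_of_le ((x - 1 / 2) / 2) (by linarith) ?_) (by positivity)
    rw [← dim_zero (η := (x - 1 / 2) / 2) (by linarith)]
    refine dimH_mono (inter_subset_inter_right _ (fun y hy => ?_))
    rw [Real.ball_eq_Ioo] at hy
    show _ ≤ y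
    linarith [hy.1]
  have h4 : ∀ ε, 0 < ε → ∃ x ∈ DS (sim aa rr), 1 / 2 < x ∧ x < 1 / 2 + ε := fun ε hε => by
    obtain ⟨F, hF⟩ := D_near hε
    exact ⟨D F, ⟨F, rfl⟩, hF⟩
  refine ⟨EE, inferInstance, Infinite.of_injective
    (fun k : ℕ => (⟨k, ⟨0, Nat.pos_of_ne_zero (by simp [N])⟩⟩ : EE))
    (fun k k' h => congrArg Sigma.fst h), aa, rr, fun e => ⟨ok.pos e, ok.half e⟩,
    fun e x hx => ?_, fun e x hx => ?_, fun e e' hne => ?_, h1, h2, h3, h4, fun hc => ?_⟩
  · simp only [sim]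
    constructor <;> nlinarith [ok.pos e, ok.a0 e, ok.a1 e, hx.1, hx.2]
  · simp only [sim]
    constructor <;> nlinarith [ok.pos e, ok.half e, ok.a0 e, ok.a1 e, hx.1, hx.2]
  · rw [Set.disjoint_left]
    rintro _ ⟨x, hx, rfl⟩ ⟨y, hy, h⟩
    simp only [sim] at h
    rcases ok.sep e e' hne with hs | hs <;>
      nlinarith [ok.pos e, ok.pos e', hx.1, hx.2, hy.1, hy.2]
  · have h5 := (hc _ h1).eventually (lt_mem_nhds (show (0 : ENNReal) < _ by rw [h2]; exact one_pos))
    rw [eventually_nhdsWithin_iff, Metric.eventually_nhds_iff] at h5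
    obtain ⟨ε, hε, h6⟩ := h5
    obtain ⟨x, hx, hx1, hx2⟩ := h4 ε hε
    have := h6 (y := x) (by rw [Real.dist_eq, abs_of_pos (by linarith)]; linarith) hx
    rw [h3 x hx1] at this
    exact lt_irrefl _ this

end Pool.Agent.Results.MP_906def_an.No
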